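import Mathlib
set_option linter.style.longLine false
namespace Pool.Agent.Results.MP_8a117e_lc.Yes
open Set Cardinal Function

/-- `L ↠ K`: a weakly order-preserving surjection -/
def Sur {X : Type} [LinearOrder X] (L K : Set X) : Prop := ∃ f : L → K, Surjective f ∧ Monotone f

lemma big {X : Type} [LinearOrder X] {Q : Set X} (q1 : Q.Countable) (q2 : ∀ a b, a < b → ∃ q ∈ Q, a ≤ q ∧ q ≤ b)
    {κ : Cardinal.{0}} (hκ : κ.IsRegular) (hu : ℵ₀ < κ) {L : Set X} (hL : #L = κ)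
    (H : ∀ K ⊆ L, #K = κ → Sur L K) : ∀ x ∈ L, #(L ∩ Iic x : Set X) = κ := by
  let T := {x | #(L ∩ Iic x : Set X) < κ}
  have sm : #(L ∩ T : Set X) < κ := by
    have := (q1.mono (inter_subset_left (t := T))).to_subtype
    refine lt_of_le_of_lt (mk_le_mk_of_subset (t := (⋃ q : (Q ∩ T : Set X), L ∩ Iic q.1) ∪ {x | IsGreatest T x})
      fun x h => ?_) ((mk_union_le _ _).trans_lt (add_lt_of_lt hu.le ((card_iUnion_lt_iff_forall_of_isRegular hκ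
        (mk_le_aleph0.trans_lt hu)).2 fun q => q.2.2) ((mk_le_one_iff_set_subsingleton.2 fun _ a _ b =>
          a.unique b).trans_lt (one_lt_aleph0.trans hu))))
    refine or_iff_not_imp_right.2 fun k => ?_
    obtain ⟨y, a, b⟩ : ∃ y ∈ T, x < y := by simpa [IsGreatest, h.2, upperBounds] using k
    obtain ⟨q, i, j, l⟩ := q2 x y b
    exact mem_iUnion.2 ⟨⟨q, i, (mk_le_mk_of_subset (inter_subset_inter_right _ (Iic_subset_Iic.2 l))).trans_lt a⟩, h.1, j⟩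
  have le : ∀ {s}, #(L ∩ s : Set X) ≤ κ := hL ▸ mk_le_mk_of_subset inter_subset_left
  have d : ∀ s, #((L ∩ s) \ T : Set X) < κ → #(L ∩ s : Set X) < κ := fun s h =>
    lt_of_le_of_lt (mk_le_mk_of_subset fun x k => (em (x ∈ T)).imp (fun a => ⟨k.1, a⟩) fun a => ⟨k, a⟩)
      ((mk_union_le _ _).trans_lt (add_lt_of_lt hu.le sm h))
  obtain ⟨g, g1, g2⟩ := H (L \ T) sdiff_subset (le_antisymm (hL ▸ mk_le_mk_of_subset sdiff_subset)
    (not_lt.1 fun h => (d Set.univ (by simpa using h)).ne (by simpa using hL)))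
  refine fun x h => le.eq_of_not_lt fun k => (g ⟨x, h⟩).2.2 (d _ (lt_of_le_of_lt ?_ k))
  refine le_trans (mk_le_mk_of_subset (t := range fun y : (L ∩ Iic x : Set X) => (g ⟨y, y.2.1⟩).1) fun z l => ?_) mk_range_le
  obtain ⟨y, hy⟩ := g1 ⟨z, l.1.1, l.2⟩
  rcases le_total y.1 x with c | c
  · exact ⟨⟨y, y.2, c⟩, congrArg Subtype.val hy⟩
  · exact ⟨⟨x, h, le_rfl⟩, le_antisymm ((g2 (show ⟨x, h⟩ ≤ y from c)).trans hy.le) l.1.2⟩

theorem result (κ : Cardinal.{0}) (hκ : κ.IsRegular) (hu : ℵ₀ < κ) (L : Set ℝ) (hL : #L = κ)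
    (H : ∀ K ⊆ L, #K = κ → Sur L K) : ∀ K ⊆ L, K.Nonempty → Sur L K := by
  rintro K hK ⟨k, hk⟩
  rcases ((mk_le_mk_of_subset hK).trans hL.le).eq_or_lt with c | c
  · exact H K hK c
  have q : ∀ a b : ℝ, a < b → ∃ q ∈ range ((↑) : ℚ → ℝ), a ≤ q ∧ q ≤ b := fun a b h =>
    let ⟨q, i, j⟩ := exists_rat_btwn h; ⟨q, ⟨q, rfl⟩, i.le, j.le⟩
  have A := big (countable_range _) q hκ hu hL H
  have B := big (X := ℝᵒᵈ) (countable_range ((↑) : ℚ → ℝ)) (fun a b h => (q b a h).imp fun _ k => ⟨k.1, k.2.symm⟩) hκ hu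
    (L := L) hL (fun K a b => (H K a b).imp fun _ k => ⟨k.1, fun _ _ h => k.2 h⟩) k (hK hk)
  obtain ⟨f, f1, f2⟩ := H (K ∪ L ∩ Ici k) (union_subset hK inter_subset_left) (le_antisymm
    (hL ▸ mk_le_mk_of_subset (union_subset hK inter_subset_left)) (B.ge.trans (mk_le_mk_of_subset subset_union_right)))
  choose s hs using fun x : K => f1 ⟨x, Or.inl x.2⟩
  obtain ⟨a, ha⟩ : ∃ a : K, ¬ #(Subtype.val '' {y | (f y).1 = a} : Set ℝ) < κ := by
    by_contra h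
    push Not at h
    refine ((card_iUnion_lt_iff_forall_of_isRegular hκ c).2 h).not_ge ((A _ (s ⟨k, hk⟩).2).ge.trans
      (mk_le_mk_of_subset fun y l => ?_))
    have : (f ⟨y, l.1⟩).1 ≤ k := (f2 (show ⟨y, l.1⟩ ≤ s ⟨k, hk⟩ from l.2)).trans (hs _).le
    exact mem_iUnion.2 ⟨⟨f ⟨y, l.1⟩, (f _).2.elim id fun h => by rwa [this.antisymm h.2]⟩, ⟨y, l.1⟩, rfl, rfl⟩
  have sb : Subtype.val '' {y | (f y).1 ∈ K} ⊆ L := Subtype.coe_image_subset _ _
  obtain ⟨g, g1, g2⟩ := H _ sb (le_antisymm (hL ▸ mk_le_mk_of_subset sb) ((not_lt.1 ha).trans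
    (mk_le_mk_of_subset (image_mono fun y (h : _ = _) => show _ ∈ K from h ▸ a.2))))
  refine ⟨fun x => ⟨f ⟨g x, sb (g x).2⟩, by obtain ⟨y, i, j⟩ := (g x).2; simpa [← j] using i⟩, fun x => ?_,
    fun x y h => f2 (g2 h)⟩
  obtain ⟨y, hy⟩ := g1 ⟨s x, s x, by simp [hs], rfl⟩
  exact ⟨y, by simp [hy, hs]⟩

end Pool.Agent.Results.MP_8a117e_lc.Yes
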